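import Pool.Agent.L7h16.FP.Tree

/-!
# Posets with simple intervals: finitely many balance constants below `1/2 - ε`

Let `m` be a natural number. Consider the class `𝒞(m)` of the finite posets all of whose intervals `[x, y]` are built from
sets with at most `m` elements by direct sums and disjoint sums. It contains the posets whose intervals have at most `m`
elements, and for `m = 1` the posets all of whose intervals are chains, in particular the posets whose cover graph is a
forest. The number of indecomposable posets of the class is infinite, also for bounded width.

(1) There is an absolute constant `B` such that every poset of the class with balance constant less than `1/2 - ε` is a direct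
sum of posets with at most `2 K + (m + 2 K) (2 K² + 1)` elements, where `K = ⌈exp (B log(2/ε)³ / ε⁴)⌉`.
(2) For every `c < 1/2` the posets of the class have only finitely many balance constants `≤ c`: the only accumulation point
of the balance constants of the class up to `1/2` is `1/2`.
(3) There is a gap above `1/3` for the class if and only if all posets of the class outside `𝒟` have balance constant
greater than `1/3`.

For all posets (2) is false: there are posets of width two with infinitely many balance constants which converge to `β`, see
the problem.

Proof.  By `ManyIncomparable` every element `x` of a poset with balance constant less than `1/2 - ε` is incomparable to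
fewer than `K` elements. Let `x` be minimal and `y` maximal, and `I = [x, y]`. At most `2 K` elements are outside of `I`,
and at most `2 K²` elements are incomparable to one of these. In a set which is built from sets with at most `m` elements by
direct and disjoint sums, every subset with more than `m + 2 K` elements is divided by a cut of the set into a direct
sum: the disjoint sums have two nonempty parts only if they have fewer than `2 K` elements. So the classes of elements of
`I` which no cut of `I` divides have at most `m + 2 K` elements. If `P` has many elements, there is such a class which does
not contain `x` and whose elements are comparable to all elements outside of `I`. The elements of `I` before this class,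
and the elements outside of `I` which are less than the elements of this class, form the first part of a decomposition of `P`
into a direct sum. The balance constant of a direct sum is the maximum of the balance constants of the summands, and the
class is closed under induced subposets; this gives the other statements.
-/

set_option autoImplicit false

namespace Pool.Agent.Results.MP_33fb9b_co.FiniteBelowHalf

open Pool.Agent.H13R3.WB Pool.Agent.L7h16.FP

theorem result :
    (∃ B : ℝ, 0 < B ∧ ∀ ε : ℝ, 0 < ε → ε ≤ 1 / 2 → ∀ (m : ℕ) (P : Type) [Fintype P] [PartialOrder P] [Nonempty P],
      Intervals m P → SumOfSmall (bound B ε m) P ∨ 1 / 2 - ε ≤ balance P) ∧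
    (∀ (m : ℕ) (c : ℝ), c < 1 / 2 → {v | v ∈ values m ∧ v ≤ c}.Finite) ∧
    (∀ m : ℕ, (∃ ε : ℝ, 0 < ε ∧ ∀ (P : Type) [Fintype P] [PartialOrder P] [Nonempty P],
        Intervals m P → InD P ∨ 1 / 3 + ε ≤ balance P) ↔
      ∀ (P : Type) [Fintype P] [PartialOrder P] [Nonempty P], Intervals m P → InD P ∨ 1 / 3 < balance P) ∧
    ∀ (P : Type) [Fintype P] [PartialOrder P],
      ((∀ x y u v : P, x ≤ u → u ≤ y → x ≤ v → v ≤ y → u ≤ v ∨ v ≤ u) → Intervals 1 P) ∧
      ((SimpleGraph.hasse P).IsAcyclic → Intervals 1 P) ∧
      ∀ m : ℕ, (∀ x y : P, (Set.Icc x y).ncard ≤ m) → Intervals m P :=
  ⟨layers, fun m _ hc => finite_values m hc, gap_iff, fun _ _ _ => ⟨intervals_of_chains,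
    fun h => intervals_of_chains (forest_chains h), fun _ h => intervals_of_card h⟩⟩

end Pool.Agent.Results.MP_33fb9b_co.FiniteBelowHalf
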