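import Mathlib
import Pool.Agent.L7h2.HT.Fin

/-!
# Posets of height two

Every finite poset without a chain of three elements is in `𝒟` or has balance constant at least `7/20`,
and `7/20` is larger than `β`. The same holds for all posets which are built from such posets by disjoint
sums, direct sums, and by the step to a poset which has an autonomous subset outside `𝒟` in the class.

Proof. Let all pairs be unbalanced for `δ = 7/20`. Let `x`, `y` have the same lower elements, `t` the
probability that `y` comes immediately after `x`, and `q < δ` the probability that `y` comes before `x`.
Moving `y` down shows that every positive gap has probability at most `t`, so the mean of the positive part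
of the gap is at least `p² / (2 t) + p / 2` with `p = 1 - q`; and `t` times the mean of the negative part is
at most `q²` (a consequence of the Brunn–Minkowski inequality; the error term is removed by long chains
below the poset). So the mean places of `x` and `y` differ by at least `c / t + (1 - δ) / 2` with
`c = (1 - δ)² / 2 - δ²`. Also `t` is at most the probability that `y` has the first possible place, and the
sum of these probabilities over a set of elements with the same lower elements is at most one. So the last
of the `k + 1` minimal elements has mean place at least about `k (1 - δ) / 2 + (√c k + √(1/2))² - 1/2`. But an
element with `u` upper elements and `d` lower elements has mean distance at most `(n - 1 - u - d) / 2` from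
its lower elements. This settles the case of at least four minimal elements; isolated elements are removed
first, and there are at least as many minimal elements as other ones up to duality. For two and three
minimal elements the exchange of two elements and a sharper bound for an element with one upper element
are used.
-/

set_option autoImplicit false

namespace Pool.Agent.Results.MP_33fb9b_co.HeightTwo

open Pool.Agent.H13R3.WB Pool.Agent.H931R3.Bal Pool.Agent.N175.SO Pool.Agent.Y491.BF.H2

theorem result : (5864893 + 27 * √57) / 16812976 < (7 / 20 : ℝ) ∧
    ∀ (R : Type) [Fintype R] [PartialOrder R],
      Closed (fun P _ => Nonempty P ∧ ∀ x y z : P, x < y → ¬ y < z) R →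
      InD R ∨ 7 / 20 ≤ balance R := by
  constructor
  · have h : √57 ≤ 8 := by
      rw [Real.sqrt_le_iff]
      norm_num
    linarith
  · intro R _ _ hR
    exact (Closed.gap (c := 7 / 20) (by norm_num) (fun P _ _ hP => ⟨hP.1, height_two P hP⟩) hR).2

end Pool.Agent.Results.MP_33fb9b_co.HeightTwo
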