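import Mathlib
import Pool.Agent.L7h63.TF.Fin
import Pool.Agent.L7h63.TF.Bim

/-!
# The gap above `1/3` for posets without `3 + 1`, and for bimodules

There is an absolute constant `ε > 0` such that a finite poset `P` without induced `3 + 1` is in `𝒟` or
has balance constant at least `1/3 + ε` in each of the following cases.

* Every element is incomparable to at most `13` others.
* There is no antichain with eight elements.
* There are no six elements with the same lower elements, or no six elements with the same upper
  elements.

A local form holds for all finite posets. Let `X`, `Y` be sets of elements such that all elements of `X`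
have the same lower elements and the same upper elements outside `Y`, and all elements of `Y` have the
same upper elements and the same lower elements outside `X` (`Bimodule`; for instance `X`, `Y` may replace
two elements `p`, `q` of any poset, with any relations `x < y` between them). If one of the two sets
has at least two and at most five elements, then the balance constant is at least `1/3 + ε`, or two
elements of `X`, or of `Y`, lie in an autonomous copy of `2 + 1`.

More generally let `P` be a finite poset such that for two incomparable elements at most two of the
four differences of the sets of lower and of upper elements are nonempty, and if these are the two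
differences which an element comparable to everything comparable to the other one has, then they are
chains (`PairCond`; this contains all posets without `3 + 1`, and the class `Tame` of `FewSeparators`).
Suppose that an element `x` with `k ≥ 5` other elements which have the same lower elements is
incomparable to at most `(k² + 8 k) / 5` elements (`LowThin`), or the same for upper elements. Then `P` is in
`𝒟` or has balance constant at least `1/3 + ε`. The same holds for the closure of this class, of the
class `CloseTame`, of the posets of height at most two and of the posets with a small bimodule under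
disjoint sums, direct sums and the passage from a member outside `𝒟` to any poset which contains it as
an autonomous subset.

Proof. Call two elements crossing if their sets of upper elements are not nested. If there is no
crossing pair, then the poset is in the class `Tame`, and the gap is known. Crossing elements have the
same lower elements. Let `X` be a nontrivial component of the crossing graph. The elements which
separate two elements of `X` form one component `Y` of the dual crossing graph (`tangle`), and the
elements which separate two elements of `Y` lie in `X`. By the theorem on elements with the same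
lower elements `X` has at most five elements, if there is no gap. A search shows that there is no
bipartite graph between a set with two to five elements and a set of any size such that in any two
vertices of the same side one has two neighbours which are not neighbours of the other one (`small`).
So there are two elements of `X`, or of `Y`, both of whose differences have at most one element. They
form a good pair, which is not exceptional, because a third element which crosses them forms a `3 + 1`
with the elements of the exceptional triple.
-/

set_option autoImplicit false

namespace Pool.Agent.Results.MP_33fb9b_co.SmallTangles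

open Pool.Agent.H13R3.WB Pool.Agent.H931R3.Bal Pool.Agent.R636.BG Pool.Agent.N175.SO
open Pool.Agent.Y491.BF.H2 Pool.Agent.L7h63.TF

/-- the side conditions on the bimodule: one side has two to five elements -/
def SmallSide {P : Type} (X Y : Finset P) : Prop :=
  (2 ≤ X.card ∧ X.card ≤ 5) ∨ (2 ≤ Y.card ∧ Y.card ≤ 5)

theorem result : ∃ ε : ℝ, 0 < ε ∧
    (∀ (P : Type) [Fintype P] [PartialOrder P], Nonempty P → ThreeOneFree P →
      (∀ x : P, Nat.card {y : P // ¬ x ≤ y ∧ ¬ y ≤ x} ≤ 13) ∨
      (∀ A : Finset P, IsAntichain (· ≤ ·) (A : Set P) → A.card ≤ 7) ∨
      (∀ A : Finset P, (∀ x ∈ A, ∀ y ∈ A, ∀ w, w < x ↔ w < y) → A.card ≤ 5) ∨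
      (∀ A : Finset P, (∀ x ∈ A, ∀ y ∈ A, ∀ w, x < w ↔ y < w) → A.card ≤ 5) →
      InD P ∨ 1 / 3 + ε ≤ balance P) ∧
    (∀ (P : Type) [Fintype P] [PartialOrder P] (X Y : Finset P), Bimodule P X Y →
      SmallSide X Y → 1 / 3 + ε ≤ balance P ∨
        ∃ x y z : P, ((x ∈ X ∧ y ∈ X) ∨ (x ∈ Y ∧ y ∈ Y)) ∧ x ≠ y ∧ AutoE P x y z) ∧
    (∀ (P : Type) [PartialOrder P], (ThreeOneFree P → PairCond P) ∧ (Tame P → PairCond P)) ∧
    ∀ (R : Type) [Fintype R] [PartialOrder R],
      Closed (fun P _ => Nonempty P ∧ ((PairCond P ∧ (LowThin P ∨ UppThin P)) ∨
        CloseTame P ∨ (∀ x y z : P, x < y → ¬ y < z) ∨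
        ∃ X Y : Finset P, Bimodule P X Y ∧ SmallSide X Y ∧ ∀ x y z : P,
          ((x ∈ X ∧ y ∈ X) ∨ (x ∈ Y ∧ y ∈ Y)) → x ≠ y → ¬ AutoE P x y z)) R →
      InD R ∨ 1 / 3 + ε ≤ balance R := by
  obtain ⟨ε₄, h4, g4⟩ := pair_gap
  obtain ⟨ε, h0, m4, m5⟩ : ∃ ε : ℝ, 0 < ε ∧ ε ≤ ε₄ ∧ ε ≤ 1 / 1000 :=
    ⟨min ε₄ (1 / 1000), by positivity, min_le_left _ _, min_le_right _ _⟩
  have good : Good ε := fun P _ _ a b hab => ((g4 P).1 a b hab).imp id (fun h => by linarith)
  have trip : Trip ε := fun P _ _ x y z a b c => by linarith [(g4 P).2.2.1 x y z a b c]
  have hbim : ∀ (P : Type) [Fintype P] [PartialOrder P] (X Y : Finset P), Bimodule P X Y →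
      SmallSide X Y → 1 / 3 + ε ≤ balance P ∨
        ∃ x y z : P, ((x ∈ X ∧ y ∈ X) ∨ (x ∈ Y ∧ y ∈ Y)) ∧ x ≠ y ∧ AutoE P x y z := by
    intro P _ _ X Y h hs
    rcases hs with ⟨k1, k2⟩ | ⟨k1, k2⟩
    · exact bim good h k1 k2
    · exact bim' good h k1 k2
  refine ⟨ε, h0, ?_, hbim, fun P _ => ⟨fun h => h.cond, fun h x y i1 i2 => Or.inl (h x y i1 i2)⟩,
    ?_⟩
  · intro P _ _ hne hf hc
    refine class_gap' good trip m5 hf.cond ?_
    rcases hc with k | k | k | k
    · exact Or.inl (thin_of_inc k)
    · exact Or.inl (thin_of_inc fun x => (inc_of_width hf k x).trans (by norm_num))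
    · exact Or.inl (thin_of_class k)
    · exact Or.inr (thin_of_class' k)
  · intro R _ _ hR
    refine (Closed.gap (c := 1 / 3 + ε) (by linarith) ?_ hR).2
    intro P _ _ hP
    obtain ⟨hne, hP⟩ := hP
    refine ⟨hne, ?_⟩
    rcases hP with ⟨h1, h2⟩ | h1 | h1 | ⟨X, Y, h1, h2, h3⟩
    · exact class_gap' good trip m5 h1 h2
    · exact CloseTame.gap good trip (by linarith) P h1
    · rcases height_two P ⟨hne, h1⟩ with k | k
      · exact Or.inl k
      · exact Or.inr (by linarith)
    · rcases hbim P X Y h1 h2 with k | ⟨x, y, z, k1, k2, k3⟩
      · exact Or.inr k
      · exact absurd k3 (h3 x y z k1 k2)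

end Pool.Agent.Results.MP_33fb9b_co.SmallTangles
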