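import Mathlib
import Pool.Agent.L7h63.TK.Six
import Pool.Agent.L7h63.TK.Sharp
import Pool.Agent.L7h2.HT.Fin

/-!
# The balance constant of posets with a thin bottom

Let `K = 5`, `M = 22`, `c = 0.348842`, or `K = 6`, `M = 9`, `c = 0.34`. Let `𝒯` be the class of the
finite posets `P` in which each element is incomparable to at most `K` others, or at least the
following holds in `P` (or in its dual): each element with at most `M` smaller elements is
incomparable to at most `K` elements with at most `M` smaller elements, and `P` has no smallest element
and is not `2 + 1` or the direct sum of `2 + 1` and another poset. Nothing is assumed about the other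
elements. Then the posets of `𝒯` outside `𝒟` have balance constant at least `c`. The same lower bound
holds for all posets outside `𝒟` in the closure of `𝒯`, of the posets of width at most two and of the
posets of height at most two under disjoint sums, direct sums and the passage from a member outside
`𝒟` to any poset which contains it as an autonomous subset.

For `K = 5` this is sharp up to `4·10⁻⁷`: the infimum of the balance constants of the posets outside
`𝒟` in which each element is incomparable to at most five others is at most
`γ = (10999528681 - 3105 √433) / 31531330288 = 0.3488423726...`, the infimum for the posets of width two.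

Proof of the lower bound. Let all pairs of `P` be unbalanced with the constant `p / q`; we may assume
that `P` is not a direct sum and has an antichain with three elements. The elements with fewer than `k`
lower elements form a poset `B`, and each lower set with `k` elements is a lower set of `B`. Let
`c(I)` be the number of linear extensions of the complement of the lower set `I`. For two elements
`x`, `y` of `B` such that each lower set with `k` elements contains one of them, the number of linear
extensions of `P` with `x` before `y` is a linear function of the vector of the numbers `c(I)`, and so is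
the number of all linear extensions. If the linear inequalities for the unbalanced pairs have no
nonzero solution `c ≥ 0`, then there is a certificate, a nonnegative combination (`lf`). Otherwise
the elements with exactly `k` lower elements are added one after the other (`grow`; there are
finitely many cases, because each element is incomparable to at most `K` others), and another
certificate is tried after each step. The search ends after `23` levels with `25084` cases up to
isomorphism for `K = 5`, and after `10` levels with `120235` cases for `K = 6`; the cases and the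
certificates are verified by the kernel (`chks`, `soundL`).
-/

set_option autoImplicit false

namespace Pool.Agent.Results.MP_33fb9b_co.ThinPosets

open Pool.Agent.H13R3.WB Pool.Agent.H931R3.Bal Pool.Agent.N175.SO Pool.Agent.W853
open Pool.Agent.TH153.WX (gam Tm fam_upper fam_not_InD gam_lt n_eq len_wm)

/-- each element is incomparable to at most `K` others -/
def Thin (K : ℕ) (P : Type) [PartialOrder P] : Prop :=
  ∀ x : P, Nat.card {y : P // ¬ x ≤ y ∧ ¬ y ≤ x} ≤ K

/-- each element with at most `M` smaller elements is incomparable to at most `K` elements with at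
most `M` smaller elements -/
def ThinBottom (K M : ℕ) (P : Type) [PartialOrder P] : Prop :=
  ∀ x : P, Nat.card {w : P // w < x} ≤ M →
    Nat.card {y : P // Nat.card {w : P // w < y} ≤ M ∧ ¬ x ≤ y ∧ ¬ y ≤ x} ≤ K

/-- There is a smallest element, or the poset is the direct sum of `2 + 1` and another poset, which may
be empty: the elements `a < b` and `c` are below all the others. -/
def SmallBottom (P : Type) [PartialOrder P] : Prop :=
  (∃ x : P, ∀ y, x ≤ y) ∨ ∃ a b c : P, a < b ∧ (¬ c ≤ a ∧ ¬ a ≤ c) ∧ (¬ c ≤ b ∧ ¬ b ≤ c) ∧
    ∀ y, y = a ∨ y = b ∨ y = c ∨ (a < y ∧ b < y ∧ c < y)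

/-- nonempty, and thin, or the bottom or the top is thin and not small, or width at most two, or
height at most two -/
def Base (K M : ℕ) (P : Type) [PartialOrder P] : Prop :=
  Nonempty P ∧ (Thin K P ∨ (ThinBottom K M P ∧ ¬ SmallBottom P) ∨
    (ThinBottom K M Pᵒᵈ ∧ ¬ SmallBottom Pᵒᵈ) ∨
    (∀ s : Finset P, IsAntichain (· ≤ ·) (s : Set P) → s.card ≤ 2) ∨
    (∀ x y z : P, x < y → ¬ y < z))

theorem aux {p q K M : ℕ} (hq : 0 < q) (hpq : (p : ℝ) / q ≤ Pool.Agent.TH153.WQ.cR)
    (root : ∀ (P : Type) [Fintype P] [PartialOrder P], Pool.Agent.L7h63.TK.HypL P p q K M →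
      Pool.Agent.L7h63.TH.Bad P p q 0 ⟨[], []⟩)
    (R : Type) [Fintype R] [PartialOrder R] (hR : Closed (fun P _ => Base K M P) R) :
    InD R ∨ (p : ℝ) / q ≤ balance R := by
  have hc : Pool.Agent.TH153.WQ.cR ≤ 0.349 := by
    unfold Pool.Agent.TH153.WQ.cR; norm_num
  refine (Closed.gap (c := (p : ℝ) / q) (by norm_num at hc ⊢; linarith) ?_ hR).2
  intro P _ _ hP
  obtain ⟨hne, hP⟩ := hP
  refine ⟨hne, ?_⟩
  rcases hP with h | ⟨h, h'⟩ | ⟨h, h'⟩ | h | h
  · exact Pool.Agent.L7h63.TK.thin_gapL hq hpq root P h
  · exact Or.inr (Pool.Agent.L7h63.TK.bottom_gap hq hpq root P h h')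
  · have := Pool.Agent.L7h63.TK.bottom_gap hq hpq root Pᵒᵈ h h'
    rw [Pool.Agent.R636.BG.balance_dual] at this
    exact Or.inr this
  · rcases Pool.Agent.TH153.WQ.width_two_gap P h with k | k
    · exact Or.inl k
    · exact Or.inr (hpq.trans k)
  · rcases Pool.Agent.Y491.BF.H2.height_two P ⟨hne, h⟩ with k | k
    · exact Or.inl k
    · exact Or.inr (le_trans (by norm_num at hc ⊢; linarith) k)

theorem result :
    (∀ (K M : ℕ) (c : ℝ), (K = 5 ∧ M = 22 ∧ c = 0.348842) ∨ (K = 6 ∧ M = 9 ∧ c = 0.34) →
      ∀ (R : Type) [Fintype R] [PartialOrder R], Closed (fun P _ => Base K M P) R →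
        InD R ∨ c ≤ balance R) ∧
    ∀ ε : ℝ, 0 < ε → ∃ (P : Type) (_ : Fintype P) (_ : PartialOrder P), Nonempty P ∧ Thin 5 P ∧
      (∀ s : Finset P, IsAntichain (· ≤ ·) (s : Set P) → s.card ≤ 2) ∧ ¬ InD P ∧
      balance P < (10999528681 - 3105 * √433) / 31531330288 + ε := by
  refine ⟨?_, ?_⟩
  · intro K M c h R _ _ hR
    rcases h with ⟨rfl, rfl, rfl⟩ | ⟨rfl, rfl, rfl⟩
    · have := aux (p := 174421) (q := 500000) (K := 5) (M := 22) (by norm_num)
        (by unfold Pool.Agent.TH153.WQ.cR; norm_num) Pool.Agent.L7h63.TK.root5L R hR
      rcases this with h | h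
      · exact Or.inl h
      · exact Or.inr (le_trans (by norm_num) h)
    · have := aux (p := 17) (q := 50) (K := 6) (M := 9) (by norm_num)
        (by unfold Pool.Agent.TH153.WQ.cR; norm_num) Pool.Agent.L7h63.TK.root6L R hR
      rcases this with h | h
      · exact Or.inl h
      · exact Or.inr (le_trans (by norm_num) h)
  · intro ε hε
    obtain ⟨m, hm⟩ := exists_pow_lt_of_lt_one hε (show (1 : ℝ) / 15 < 1 by norm_num)
    have hlen := len_wm m
    have hn := n_eq m
    have hne : 0 < Fintype.card (Tm m).W := by rw [(Tm m).card_W]; omega
    refine ⟨(Tm m).W, inferInstance, inferInstance, Fintype.card_pos_iff.1 hne,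
      Pool.Agent.L7h63.TK.thin_Tm m, (Tm m).antichain_card, fam_not_InD m, ?_⟩
    refine lt_of_le_of_lt (fam_upper m) ?_
    rw [div_pow, one_pow] at hm
    change gam + 1 / 15 ^ m < gam + ε
    linarith

end Pool.Agent.Results.MP_33fb9b_co.ThinPosets
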